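import Pool.Agent.Lib.MP_3e612f_nt.ZE.C.Base

/-! Project ZE, part E: the pointwise large deviation inequality. -/

set_option autoImplicit false

namespace Pool.Agent.Lib.MP_3e612f_nt.ZE

open Finset MeasureTheory Filter Topology

/-- convexity of the exponential -/
theorem exp_le_cosh {l y : ℝ} (hy : |y| ≤ 1) : Real.exp (l * y) ≤ Real.cosh l + y * Real.sinh l := by
  rw [mul_comm l y]
  exact Real.exp_mul_le_cosh_add_mul_sinh hy l

/-- `∏ (c + s y_j) = ∑_S c ^ (J - |S|) s ^ |S| ∏_{j ∈ S} y_j` -/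
theorem prod_cosh (J : ℕ) (c s : ℝ) (y : ℕ → ℝ) :
    ∏ j ∈ range J, (c + y j * s) = ∑ S ∈ (range J).powerset, c ^ (J - S.card) * s ^ S.card * ∏ j ∈ S, y j := by
  have h1 : ∏ j ∈ range J, (c + y j * s) = ∏ j ∈ range J, (y j * s + c) :=
    Finset.prod_congr rfl fun j _ => add_comm _ _
  rw [h1, Finset.prod_add]
  refine Finset.sum_congr rfl fun S hS => ?_
  rw [Finset.mem_powerset] at hS
  rw [Finset.prod_mul_distrib, Finset.prod_const, Finset.prod_const, Finset.card_sdiff_of_subset hS,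
    Finset.card_range]
  ring

private theorem coshE_prod (J : ℕ) (e : ℝ) (y : ℕ → ℝ) (hy : ∀ j, |y j| ≤ 1) :
    Real.exp (e * ∑ j ∈ range J, y j) ≤ ∏ j ∈ range J, (Real.cosh e + y j * Real.sinh e) := by
  rw [Finset.mul_sum, Real.exp_sum]
  exact Finset.prod_le_prod (fun j _ => (Real.exp_pos _).le) fun j _ => exp_le_cosh (hy j)

/-- if `|y_j| ≤ 1` then `|mean y| ≤ e + exp (-e² J) (∏ (cosh e + y_j sinh e) + ∏ (cosh e - y_j sinh e))`: the mean has modulus
at most one, and if it exceeds `e` then one of `exp (± e ∑ y_j - e² J)` is at least one -/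
theorem mean_le_cosh (J : ℕ) (hJ : 1 ≤ J) {e : ℝ} (he : 0 ≤ e) (y : ℕ → ℝ) (hy : ∀ j, |y j| ≤ 1) :
    |(∑ j ∈ range J, y j) / (J : ℝ)| ≤ e + Real.exp (-(e ^ 2 * J)) *
      (∏ j ∈ range J, (Real.cosh e + y j * Real.sinh e) + ∏ j ∈ range J, (Real.cosh e + (-y j) * Real.sinh e)) := by
  have hJ0 : (0 : ℝ) < J := by exact_mod_cast hJ
  have h1 := coshE_prod J e y hy
  have h2 := coshE_prod J e (fun j => -y j) fun j => by rw [abs_neg]; exact hy j
  rw [Finset.sum_neg_distrib] at h2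
  set s := ∑ j ∈ range J, y j with hs
  set P := ∏ j ∈ range J, (Real.cosh e + y j * Real.sinh e) with hP
  set Q := ∏ j ∈ range J, (Real.cosh e + (-y j) * Real.sinh e) with hQ
  have hP0 : 0 ≤ P := (Real.exp_pos _).le.trans h1
  have hQ0 : 0 ≤ Q := (Real.exp_pos _).le.trans h2
  have hE0 := Real.exp_pos (-(e ^ 2 * J))
  have hm1 : |s / J| ≤ 1 := by
    rw [abs_div, Nat.abs_cast, div_le_one hJ0]
    calc |s| ≤ ∑ j ∈ range J, |y j| := Finset.abs_sum_le_sum_abs _ _
      _ ≤ ∑ j ∈ range J, (1 : ℝ) := Finset.sum_le_sum fun j _ => hy j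
      _ = J := by simp
  have hPQ : 0 ≤ Real.exp (-(e ^ 2 * J)) * (P + Q) := by positivity
  rcases le_or_gt |s / J| e with h | h
  · linarith
  · have h3 : 1 ≤ Real.exp (-(e ^ 2 * J)) * (P + Q) := by
      rcases lt_abs.1 h with h | h
      · have h4 : e * J < s := (lt_div_iff₀ hJ0).1 h
        have h5 : 0 ≤ -(e ^ 2 * J) + e * s := by nlinarith
        have h6 : 1 ≤ Real.exp (-(e ^ 2 * J)) * Real.exp (e * s) := by
          rw [← Real.exp_add]
          exact Real.one_le_exp h5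
        calc (1 : ℝ) ≤ Real.exp (-(e ^ 2 * J)) * Real.exp (e * s) := h6
          _ ≤ Real.exp (-(e ^ 2 * J)) * (P + Q) := by
              apply mul_le_mul_of_nonneg_left _ hE0.le
              linarith
      · have h4 : e * J < -s := by
          rw [← neg_div] at h
          exact (lt_div_iff₀ hJ0).1 h
        have h5 : 0 ≤ -(e ^ 2 * J) + e * (-s) := by nlinarith
        have h6 : 1 ≤ Real.exp (-(e ^ 2 * J)) * Real.exp (e * (-s)) := by
          rw [← Real.exp_add]
          exact Real.one_le_exp h5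
        calc (1 : ℝ) ≤ Real.exp (-(e ^ 2 * J)) * Real.exp (e * (-s)) := h6
          _ ≤ Real.exp (-(e ^ 2 * J)) * (P + Q) := by
              apply mul_le_mul_of_nonneg_left _ hE0.le
              linarith
    linarith

/-- complex words -/
theorem cmean_le_cosh (J : ℕ) (hJ : 1 ≤ J) {e : ℝ} (he : 0 ≤ e) (w : ℕ → ℂ) (hw : ∀ j, ‖w j‖ ≤ 1) (y : ℕ → ℝ)
    (hy : ∀ j, |y j| ≤ 1) :
    ‖(∑ j ∈ range J, w j * (y j : ℂ)) / (J : ℂ)‖ ≤ 2 * e + Real.exp (-(e ^ 2 * J)) *
      (∏ j ∈ range J, (Real.cosh e + (w j).re * y j * Real.sinh e) +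
        ∏ j ∈ range J, (Real.cosh e + (-(w j).re) * y j * Real.sinh e) +
        ∏ j ∈ range J, (Real.cosh e + (w j).im * y j * Real.sinh e) +
        ∏ j ∈ range J, (Real.cosh e + (-(w j).im) * y j * Real.sinh e)) := by
  have hre : ∀ j, |(w j).re * y j| ≤ 1 := fun j => by
    rw [abs_mul]
    exact mul_le_one₀ ((Complex.abs_re_le_norm _).trans (hw j)) (abs_nonneg _) (hy j)
  have him : ∀ j, |(w j).im * y j| ≤ 1 := fun j => by
    rw [abs_mul]
    exact mul_le_one₀ ((Complex.abs_im_le_norm _).trans (hw j)) (abs_nonneg _) (hy j)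
  have h1 := mean_le_cosh J hJ he (fun j => (w j).re * y j) hre
  have h2 := mean_le_cosh J hJ he (fun j => (w j).im * y j) him
  have e1 : ((∑ j ∈ range J, w j * (y j : ℂ)) / (J : ℂ)).re = (∑ j ∈ range J, (w j).re * y j) / (J : ℝ) := by
    rw [Complex.div_natCast_re, Complex.re_sum]
    congr 1
    exact Finset.sum_congr rfl fun j _ => by simp
  have e2 : ((∑ j ∈ range J, w j * (y j : ℂ)) / (J : ℂ)).im = (∑ j ∈ range J, (w j).im * y j) / (J : ℝ) := by
    rw [Complex.div_natCast_im, Complex.im_sum]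
    congr 1
    exact Finset.sum_congr rfl fun j _ => by simp
  have h3 := Complex.norm_le_abs_re_add_abs_im ((∑ j ∈ range J, w j * (y j : ℂ)) / (J : ℂ))
  rw [e1, e2] at h3
  have e3 : ∀ t : ℕ → ℝ, ∏ j ∈ range J, (Real.cosh e + -(t j * y j) * Real.sinh e) =
      ∏ j ∈ range J, (Real.cosh e + (-t j) * y j * Real.sinh e) := fun t =>
    Finset.prod_congr rfl fun j _ => by ring
  rw [e3 fun j => (w j).re] at h1
  rw [e3 fun j => (w j).im] at h2
  refine h3.trans ((add_le_add h1 h2).trans (le_of_eq ?_))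
  ring

end Pool.Agent.Lib.MP_3e612f_nt.ZE
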