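import Pool.Agent.Lib.MP_3e612f_nt.ZE.C.Main
import Pool.Agent.Lib.MP_3e612f_nt.ZE.E.Cosh

/-! Project ZE, part E: Theorem E (large deviations along the multiples of a random prime). -/

set_option autoImplicit false

namespace Pool.Agent.Lib.MP_3e612f_nt.ZE

open Finset MeasureTheory Filter Topology

private theorem eMain_pav_add (P : ℕ) (f g : ℕ → ℝ) :
    pav P (fun p => f p + g p) = pav P f + pav P g := by
  unfold pav
  rw [sum_add_distrib, add_div]

private theorem eMain_pav_mul (P : ℕ) (c : ℝ) (f : ℕ → ℝ) :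
    pav P (fun p => c * f p) = c * pav P f := by
  unfold pav
  rw [← mul_sum, mul_div_assoc]

private theorem eMain_pav_sum {ι : Type} (P : ℕ) (s : Finset ι) (f : ι → ℕ → ℝ) :
    pav P (fun p => ∑ i ∈ s, f i p) = ∑ i ∈ s, pav P (f i) := by
  unfold pav
  rw [sum_comm, sum_div]

private theorem eMain_pav_mono (P : ℕ) {f g : ℕ → ℝ} (h : ∀ p, f p ≤ g p) : pav P f ≤ pav P g := by
  unfold pav
  exact div_le_div_of_nonneg_right (sum_le_sum fun p _ => h p) (Nat.cast_nonneg _)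

private theorem eMain_pav_const (c : ℝ) : Tendsto (fun P => pav P (fun _ => c)) atTop (𝓝 c) := by
  obtain ⟨P₀, h⟩ := PP_nonempty
  refine tendsto_const_nhds.congr' ?_
  filter_upwards [eventually_ge_atTop P₀] with P hP
  have h1 : ((PP P).card : ℝ) ≠ 0 := by
    rw [Nat.cast_ne_zero]
    exact (card_pos.2 (h P hP)).ne'
  unfold pav
  rw [sum_const, nsmul_eq_mul, mul_div_cancel_left₀ _ h1]

private theorem eMain_expand {X : Type} {τ : ℤ → X → X} (g : X → ℝ) (J : ℕ) (v : ℕ → ℝ) (e : ℝ) (p : ℕ)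
    (x : X) : ∏ j ∈ range J, (Real.cosh e + v j * g (τ ((p : ℤ) * (j : ℤ)) x) * Real.sinh e) =
      ∑ S ∈ (range J).powerset, (Real.cosh e ^ (J - S.card) * Real.sinh e ^ S.card * ∏ j ∈ S, v j) *
        ∏ j ∈ S, g (τ ((p : ℤ) * (j : ℤ)) x) := by
  rw [prod_cosh J (Real.cosh e) (Real.sinh e) (fun j => v j * g (τ ((p : ℤ) * (j : ℤ)) x))]
  refine sum_congr rfl fun S _ => ?_
  rw [prod_mul_distrib, mul_assoc, mul_assoc, mul_assoc]

private theorem eMain_bd {X : Type} [MeasurableSpace X] {m : Measure X} {τ : ℤ → X → X}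
    (hτ : IsAct m τ) {g : X → ℝ} (hg : Bd1 g) (p : ℕ) (S : Finset ℕ) :
    Bd1 (fun x => ∏ j ∈ S, g (τ ((p : ℤ) * (j : ℤ)) x)) := by
  refine ⟨Finset.measurable_prod _ fun j _ => hg.1.comp (hτ.mp _).measurable, fun x => ?_⟩
  rw [abs_prod]
  exact prod_le_one (fun _ _ => abs_nonneg _) fun j _ => hg.2 _

private theorem eMain_int {X : Type} [MeasurableSpace X] {m : Measure X} [IsProbabilityMeasure m]
    {τ : ℤ → X → X} (hτ : IsAct m τ) {g : X → ℝ} (hg : Bd1 g) (J : ℕ) (v : ℕ → ℝ) (e : ℝ) (p : ℕ) :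
    Integrable (fun x => ∏ j ∈ range J,
      (Real.cosh e + v j * g (τ ((p : ℤ) * (j : ℤ)) x) * Real.sinh e)) m := by
  have h1 : (fun x => ∏ j ∈ range J,
      (Real.cosh e + v j * g (τ ((p : ℤ) * (j : ℤ)) x) * Real.sinh e)) =
      fun x => ∑ S ∈ (range J).powerset,
        (Real.cosh e ^ (J - S.card) * Real.sinh e ^ S.card * ∏ j ∈ S, v j) *
        ∏ j ∈ S, g (τ ((p : ℤ) * (j : ℤ)) x) := funext fun x => eMain_expand g J v e p x
  rw [h1]
  exact integrable_finsetSum _ fun S _ => (eMain_bd hτ hg p S).integrable.const_mul _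

/-- one word: expand (`prod_cosh`), every nonempty `S` is killed by `corr_set`, the empty one gives `(cosh e) ^ J` -/
theorem prod_lim {X : Type} [MeasurableSpace X] {m : Measure X} [IsProbabilityMeasure m] {τ : ℤ → X → X} (hτ : IsAct m τ)
    {g : X → ℝ} (hg : Bd1 g) (J : ℕ) (hN : ∀ i < J, Null m τ i g) (v : ℕ → ℝ) (e : ℝ) :
    Tendsto (fun P => pav P (fun p => ∫ x, ∏ j ∈ range J, (Real.cosh e + v j * g (τ ((p : ℤ) * (j : ℤ)) x) * Real.sinh e) ∂m))
      atTop (𝓝 (Real.cosh e ^ J)) := by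
  classical
  have h1 : ∀ p : ℕ, ∫ x, ∏ j ∈ range J,
      (Real.cosh e + v j * g (τ ((p : ℤ) * (j : ℤ)) x) * Real.sinh e) ∂m =
      ∑ S ∈ (range J).powerset, (Real.cosh e ^ (J - S.card) * Real.sinh e ^ S.card * ∏ j ∈ S, v j) *
        ∫ x, ∏ j ∈ S, g (τ ((p : ℤ) * (j : ℤ)) x) ∂m := by
    intro p
    simp only [eMain_expand]
    rw [integral_finsetSum _ fun S _ => (eMain_bd hτ hg p S).integrable.const_mul _]
    refine sum_congr rfl fun S _ => ?_
    rw [integral_const_mul]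
  have h2 : (fun P => pav P (fun p => ∫ x, ∏ j ∈ range J,
      (Real.cosh e + v j * g (τ ((p : ℤ) * (j : ℤ)) x) * Real.sinh e) ∂m)) =
      fun P => ∑ S ∈ (range J).powerset,
        (Real.cosh e ^ (J - S.card) * Real.sinh e ^ S.card * ∏ j ∈ S, v j) *
        pav P (fun p => ∫ x, ∏ j ∈ S, g (τ ((p : ℤ) * (j : ℤ)) x) ∂m) := by
    funext P
    simp only [h1]
    rw [eMain_pav_sum]
    exact sum_congr rfl fun S _ => eMain_pav_mul P _ _
  rw [h2]
  have h3 : Real.cosh e ^ J = ∑ S ∈ (range J).powerset,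
      (Real.cosh e ^ (J - S.card) * Real.sinh e ^ S.card * ∏ j ∈ S, v j) *
      (if S = ∅ then 1 else 0) := by
    rw [Finset.sum_eq_single (∅ : Finset ℕ)]
    · simp
    · intro S _ hS
      rw [if_neg hS, mul_zero]
    · intro h
      exact absurd (empty_mem_powerset _) h
  rw [h3]
  refine tendsto_finsetSum _ fun S hS => Tendsto.const_mul _ ?_
  by_cases h0 : S = ∅
  · rw [if_pos h0, h0]
    simp only [prod_empty, integral_const, probReal_univ, smul_eq_mul, mul_one]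
    exact eMain_pav_const 1
  · rw [if_neg h0]
    have hne : S.Nonempty := nonempty_iff_ne_empty.2 h0
    refine corr_set hτ S hne g hg (hN _ ?_)
    have h4 : S.card ≤ J := by
      have h5 := card_le_card (mem_powerset.1 hS)
      rwa [card_range] at h5
    have h5 := card_pos.2 hne
    omega

/-- **Theorem E.** `W.fold max 0 f` is the maximum of `0` and of `f w`, `w ∈ W`. -/
theorem maxw_le {X : Type} [MeasurableSpace X] {m : Measure X} [IsProbabilityMeasure m] {τ : ℤ → X → X} (hτ : IsAct m τ)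
    {g : X → ℝ} (hg : Bd1 g) (J : ℕ) (hJ : 1 ≤ J) (hN : ∀ i < J, Null m τ i g) (W : Finset (ℕ → ℂ))
    (hW : ∀ w ∈ W, ∀ j, ‖w j‖ ≤ 1) {e d : ℝ} (he : 0 ≤ e) (hd : 0 < d) :
    ∀ᶠ P in atTop, pav P (fun p => ∫ x, W.fold max 0 (fun w =>
      ‖(∑ j ∈ range J, w j * (g (τ ((p : ℤ) * (j : ℤ)) x) : ℂ)) / (J : ℂ)‖) ∂m) ≤
        2 * e + 4 * (W.card : ℝ) * Real.exp (-(e ^ 2 * J / 2)) + d := by
  obtain ⟨I, hI⟩ : ∃ I : (ℕ → ℝ) → ℕ → X → ℝ, I = (fun (v : ℕ → ℝ) (p : ℕ) (x : X) =>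
      ∏ j ∈ range J, (Real.cosh e + v j * g (τ ((p : ℤ) * (j : ℤ)) x) * Real.sinh e)) := ⟨_, rfl⟩
  obtain ⟨c, hc⟩ : ∃ c : ℝ, c = Real.exp (-(e ^ 2 * J)) := ⟨_, rfl⟩
  have hc0 : 0 ≤ c := hc ▸ (Real.exp_pos _).le
  have hIint : ∀ v p, Integrable (I v p) m := by
    intro v p
    rw [hI]
    exact eMain_int hτ hg J v e p
  have hIpos : ∀ v : ℕ → ℝ, (∀ j, |v j| ≤ 1) → ∀ p x, 0 ≤ I v p x := by
    intro v hv p x
    rw [hI]
    refine prod_nonneg fun j _ => ?_
    have h1 : |v j * g (τ ((p : ℤ) * (j : ℤ)) x)| ≤ 1 := by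
      rw [abs_mul]
      exact mul_le_one₀ (hv j) (abs_nonneg _) (hg.2 _)
    have h2 : 0 ≤ Real.sinh e := Real.sinh_nonneg_iff.2 he
    have h3 : Real.sinh e ≤ Real.cosh e := (Real.sinh_lt_cosh e).le
    have h4 := (abs_le.1 h1).1
    nlinarith
  have hIlim : ∀ v : ℕ → ℝ, Tendsto (fun P => pav P (fun p => ∫ x, I v p x ∂m)) atTop
      (𝓝 (Real.cosh e ^ J)) := by
    intro v
    rw [hI]
    exact prod_lim hτ hg J hN v e
  -- the sum of the four products
  obtain ⟨K, hK⟩ : ∃ K : (ℕ → ℂ) → ℕ → X → ℝ, K = (fun (w : ℕ → ℂ) (p : ℕ) (x : X) =>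
      I (fun j => (w j).re) p x + I (fun j => -(w j).re) p x + I (fun j => (w j).im) p x +
        I (fun j => -(w j).im) p x) := ⟨_, rfl⟩
  have hKint : ∀ w p, Integrable (K w p) m := by
    intro w p
    rw [hK]
    exact (((hIint _ p).add (hIint _ p)).add (hIint _ p)).add (hIint _ p)
  have hKpos : ∀ w ∈ W, ∀ p x, 0 ≤ K w p x := by
    intro w hw p x
    have hre : ∀ j, |(w j).re| ≤ 1 := fun j => (Complex.abs_re_le_norm _).trans (hW w hw j)
    have him : ∀ j, |(w j).im| ≤ 1 := fun j => (Complex.abs_im_le_norm _).trans (hW w hw j)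
    rw [hK]
    exact add_nonneg (add_nonneg (add_nonneg (hIpos _ hre p x)
      (hIpos _ (fun j => by rw [abs_neg]; exact hre j) p x)) (hIpos _ him p x))
      (hIpos _ (fun j => by rw [abs_neg]; exact him j) p x)
  have hpt : ∀ (p : ℕ) (x : X), W.fold max 0 (fun w =>
      ‖(∑ j ∈ range J, w j * (g (τ ((p : ℤ) * (j : ℤ)) x) : ℂ)) / (J : ℂ)‖) ≤
      2 * e + c * ∑ w ∈ W, K w p x := by
    intro p x
    have hsum0 : 0 ≤ ∑ w ∈ W, K w p x := sum_nonneg fun w hw => hKpos w hw p x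
    rw [fold_max_le]
    refine ⟨by positivity, fun w hw => ?_⟩
    have h1 := cmean_le_cosh J hJ he w (hW w hw) (fun j => g (τ ((p : ℤ) * (j : ℤ)) x))
      (fun j => hg.2 _)
    refine h1.trans ?_
    rw [← hc]
    have h2 : K w p x ≤ ∑ w ∈ W, K w p x :=
      single_le_sum (f := fun w => K w p x) (fun w hw => hKpos w hw p x) hw
    have h3 := mul_le_mul_of_nonneg_left h2 hc0
    have h4 : K w p x = (∏ j ∈ range J, (Real.cosh e + (w j).re * g (τ ((p : ℤ) * (j : ℤ)) x) * Real.sinh e) +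
        ∏ j ∈ range J, (Real.cosh e + (-(w j).re) * g (τ ((p : ℤ) * (j : ℤ)) x) * Real.sinh e) +
        ∏ j ∈ range J, (Real.cosh e + (w j).im * g (τ ((p : ℤ) * (j : ℤ)) x) * Real.sinh e) +
        ∏ j ∈ range J, (Real.cosh e + (-(w j).im) * g (τ ((p : ℤ) * (j : ℤ)) x) * Real.sinh e)) := by
      rw [hK, hI]
    rw [h4] at h3
    linarith
  have hint : ∀ p : ℕ, ∫ x, W.fold max 0 (fun w =>
      ‖(∑ j ∈ range J, w j * (g (τ ((p : ℤ) * (j : ℤ)) x) : ℂ)) / (J : ℂ)‖) ∂m ≤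
      2 * e + c * ∑ w ∈ W, (∫ x, I (fun j => (w j).re) p x ∂m + ∫ x, I (fun j => -(w j).re) p x ∂m +
        ∫ x, I (fun j => (w j).im) p x ∂m + ∫ x, I (fun j => -(w j).im) p x ∂m) := by
    intro p
    have h4 : ∀ v₁ v₂ v₃ v₄ : ℕ → ℝ, ∫ x, (I v₁ p x + I v₂ p x + I v₃ p x + I v₄ p x) ∂m =
        ∫ x, I v₁ p x ∂m + ∫ x, I v₂ p x ∂m + ∫ x, I v₃ p x ∂m + ∫ x, I v₄ p x ∂m := by
      intro v₁ v₂ v₃ v₄
      have e1 := integral_add (((hIint v₁ p).add (hIint v₂ p)).add (hIint v₃ p)) (hIint v₄ p)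
      have e2 := integral_add ((hIint v₁ p).add (hIint v₂ p)) (hIint v₃ p)
      have e3 := integral_add (hIint v₁ p) (hIint v₂ p)
      simp only [Pi.add_apply] at e1 e2 e3
      rw [e1, e2, e3]
    have hintS : Integrable (fun x => ∑ w ∈ W, K w p x) m :=
      integrable_finsetSum _ fun w _ => hKint w p
    have h1 : ∫ x, W.fold max 0 (fun w =>
        ‖(∑ j ∈ range J, w j * (g (τ ((p : ℤ) * (j : ℤ)) x) : ℂ)) / (J : ℂ)‖) ∂m ≤
        ∫ x, (2 * e + c * ∑ w ∈ W, K w p x) ∂m := by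
      refine integral_mono_of_nonneg (Eventually.of_forall fun x => ?_)
        ((integrable_const _).add (hintS.const_mul _)) (Eventually.of_forall fun x => hpt p x)
      exact (le_fold_max 0).2 (Or.inl le_rfl)
    refine h1.trans (le_of_eq ?_)
    rw [integral_add (integrable_const _) (hintS.const_mul _), integral_const, probReal_univ,
      one_smul, integral_const_mul, integral_finsetSum _ fun w _ => hKint w p]
    congr 2
    refine sum_congr rfl fun w _ => ?_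
    rw [hK]
    exact h4 _ _ _ _
  have hlim : Tendsto (fun P => pav P (fun p => 2 * e + c * ∑ w ∈ W,
      (∫ x, I (fun j => (w j).re) p x ∂m + ∫ x, I (fun j => -(w j).re) p x ∂m +
        ∫ x, I (fun j => (w j).im) p x ∂m + ∫ x, I (fun j => -(w j).im) p x ∂m))) atTop
      (𝓝 (2 * e + c * ∑ w ∈ W, (Real.cosh e ^ J + Real.cosh e ^ J + Real.cosh e ^ J +
        Real.cosh e ^ J))) := by
    have h1 : (fun P => pav P (fun p => 2 * e + c * ∑ w ∈ W,
        (∫ x, I (fun j => (w j).re) p x ∂m + ∫ x, I (fun j => -(w j).re) p x ∂m +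
        ∫ x, I (fun j => (w j).im) p x ∂m + ∫ x, I (fun j => -(w j).im) p x ∂m))) =
        fun P => pav P (fun _ => 2 * e) + c * ∑ w ∈ W,
          (pav P (fun p => ∫ x, I (fun j => (w j).re) p x ∂m) +
            pav P (fun p => ∫ x, I (fun j => -(w j).re) p x ∂m) +
            pav P (fun p => ∫ x, I (fun j => (w j).im) p x ∂m) +
            pav P (fun p => ∫ x, I (fun j => -(w j).im) p x ∂m)) := by
      funext P
      rw [eMain_pav_add P (fun _ => 2 * e), eMain_pav_mul P c, eMain_pav_sum]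
      congr 2
      refine sum_congr rfl fun w _ => ?_
      rw [eMain_pav_add, eMain_pav_add, eMain_pav_add]
    rw [h1]
    exact (eMain_pav_const _).add ((tendsto_finsetSum _ fun w _ =>
      (((hIlim _).add (hIlim _)).add (hIlim _)).add (hIlim _)).const_mul c)
  have hle : 2 * e + c * ∑ w ∈ W, (Real.cosh e ^ J + Real.cosh e ^ J + Real.cosh e ^ J +
      Real.cosh e ^ J) ≤ 2 * e + 4 * (W.card : ℝ) * Real.exp (-(e ^ 2 * J / 2)) := by
    rw [sum_const, nsmul_eq_mul]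
    have h1 : Real.cosh e ^ J ≤ Real.exp (e ^ 2 * J / 2) := by
      refine (pow_le_pow_left₀ (Real.cosh_pos e).le (Real.cosh_le_exp_half_sq e) J).trans
        (le_of_eq ?_)
      rw [← Real.exp_nat_mul]
      congr 1
      ring
    have h2 : c * Real.cosh e ^ J ≤ Real.exp (-(e ^ 2 * J / 2)) := by
      refine (mul_le_mul_of_nonneg_left h1 hc0).trans (le_of_eq ?_)
      rw [hc, ← Real.exp_add]
      congr 1
      ring
    have h3 : (0 : ℝ) ≤ 4 * W.card := by positivity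
    have h4 := mul_le_mul_of_nonneg_left h2 h3
    have h5 : c * ((W.card : ℝ) * (Real.cosh e ^ J + Real.cosh e ^ J + Real.cosh e ^ J +
      Real.cosh e ^ J)) = 4 * W.card * (c * Real.cosh e ^ J) := by ring
    rw [h5]
    linarith
  filter_upwards [hlim.eventually_lt_const (lt_add_of_pos_right _ hd)] with P hP
  exact ((eMain_pav_mono P hint).trans hP.le).trans (by linarith)

end Pool.Agent.Lib.MP_3e612f_nt.ZE
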